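import Mathlib

namespace Pool.Agent.MP_47ff19_lc.H81

/-- A two-way deterministic finite automaton with `s` states over the input alphabet `A`.
Tape symbols: `Sum.inl a` is the letter `a`, `Sum.inr false` the left and `Sum.inr true` the right
end marker. In state `q` on the symbol `c` it enters state `(δ q c).1` and moves its head by
`(δ q c).2`, which is `-1`, `0` or `1`. -/
structure TwoDFA (A : Type) (s : ℕ) where
  δ : Fin s → A ⊕ Bool → Fin s × SignType
  start : Fin s
  final : Set (Fin s)

/-- One move on the tape `⊢ w ⊣` (cells `0, …, |w| + 1`); a configuration is a pair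
(head position, state). -/
def TwoDFA.Step {A : Type} {s : ℕ} (M : TwoDFA A s) (w : List A) (c c' : ℕ × Fin s) : Prop :=
  ∃ a, (Sum.inr false :: w.map Sum.inl ++ [Sum.inr true])[c.1]? = some a ∧
    c'.2 = (M.δ c.2 a).1 ∧ (c'.1 : ℤ) = c.1 + ((M.δ c.2 a).2 : ℤ)

/-- `M` accepts `w` if, started on the left end marker in its start state, it moves off the right
end marker to the right into a final state. -/
def TwoDFA.Accepts {A : Type} {s : ℕ} (M : TwoDFA A s) (w : List A) : Prop :=
  ∃ f ∈ M.final, Relation.ReflTransGen (M.Step w) (0, M.start) (w.length + 2, f)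

end Pool.Agent.MP_47ff19_lc.H81
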